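import Pool.Agent.BEN.StmtsA

/-!
# Squad BEN, row LIX: the linear wave equation
-/

set_option autoImplicit false
set_option linter.unusedSectionVars false

namespace Pool.Agent.BEN.H64

open Set Filter Topology MeasureTheory
open scoped InnerProductSpace ENNReal
open Pool.Agent.BE01 Pool.Agent.BEF Pool.Agent.BEN

noncomputable section

variable {H : Type} [NormedAddCommGroup H] [InnerProductSpace ℝ H]

/-- Product rule for a strongly differentiable family of operators. -/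
lemma hasDerivAt_op {U : ℝ → H →L[ℝ] H} {K τ : ℝ} {g : ℝ → H} {g' v : H}
    (hK : ∀ s h, ‖U s h‖ ≤ K * ‖h‖) (hc : ContinuousAt (fun s => U s g') τ)
    (hU : HasDerivAt (fun s => U s (g τ)) v τ) (hg : HasDerivAt g g' τ) :
    HasDerivAt (fun s => U s (g s)) (v + U τ g') τ := by
  rw [hasDerivAt_iff_tendsto_slope] at hU hg ⊢
  have h1 : Tendsto (fun s => U s (slope g τ s - g')) (𝓝[≠] τ) (𝓝 0) := by
    have h2 : Tendsto (fun s => K * ‖slope g τ s - g'‖) (𝓝[≠] τ) (𝓝 0) := by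
      have h3 := (tendsto_iff_norm_sub_tendsto_zero.1 hg).const_mul K
      rwa [mul_zero] at h3
    exact squeeze_zero_norm (fun s => hK s _) h2
  have h4 : Tendsto (fun s => U s g') (𝓝[≠] τ) (𝓝 (U τ g')) :=
    tendsto_nhdsWithin_of_tendsto_nhds hc
  have h5 := hU.add (h1.add h4)
  rw [zero_add] at h5
  refine h5.congr' (Eventually.of_forall fun s => ?_)
  simp only [slope_def_module, map_sub, map_smul]
  rw [sub_add_cancel, ← smul_add]
  congr 1
  abel

lemma tendsto_decay {G : ℝ → H} {t m N : ℝ} (hm : 1 < m)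
    (hG : ∀ τ, 0 ≤ τ → ‖G τ‖ ≤ N * (t + τ) ^ (-m)) : Tendsto G atTop (𝓝 0) := by
  have h1 : Tendsto (fun τ : ℝ => N * (t + τ) ^ (-m)) atTop (𝓝 0) := by
    have h2 := ((tendsto_rpow_neg_atTop (show 0 < m by linarith)).comp
      (tendsto_atTop_add_const_left atTop t tendsto_id)).const_mul N
    rw [mul_zero] at h2
    exact h2
  exact squeeze_zero_norm' (eventually_ge_atTop (0 : ℝ) |>.mono fun τ hτ => hG τ hτ) h1

/-- The formulas for one derivative. -/
theorem lic [CompleteSpace H] (hLia : LiaStmt) {S R : H →L[ℝ] H} {C Sn : ℝ → H →L[ℝ] H}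
    (P : Prp H S R C Sn) {f f' : ℝ → H} {t0 m N : ℝ} (ht0 : 0 < t0) (hm : 1 < m)
    (hf'c : ContinuousOn f' (Ioi t0)) (hfd : ∀ t > t0, HasDerivAt f (f' t) t)
    (hfN : ∀ t > t0, ‖f t‖ ≤ N * t ^ (-m)) (hf'N : ∀ t > t0, ‖f' t‖ ≤ N * t ^ (-m)) :
    ∀ t > t0, cI Sn f t = R (cI C f' t + f t) ∧ cI C f t = - R (cI Sn f' t) := by
  have hfc : ContinuousOn f (Ioi t0) := fun t ht => (hfd t ht).continuousAt.continuousWithinAt
  -- integrability
  obtain ⟨iS, -, -⟩ := hLia H Sn f t0 m N ht0 hm P.Sn_le P.Sn_cont hfc hfN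
  obtain ⟨iC, -, -⟩ := hLia H C f t0 m N ht0 hm P.C_le P.C_cont hfc hfN
  obtain ⟨iS', -, -⟩ := hLia H Sn f' t0 m N ht0 hm P.Sn_le P.Sn_cont hf'c hf'N
  obtain ⟨iC', -, -⟩ := hLia H C f' t0 m N ht0 hm P.C_le P.C_cont hf'c hf'N
  have hsh : ∀ t > t0, ∀ τ ∈ Ici (0 : ℝ), HasDerivAt (fun s => f (t + s)) (f' (t + τ)) τ := by
    intro t ht τ hτ
    have hτ' : (0 : ℝ) ≤ τ := hτ
    have h := (hfd (t + τ) (by linarith)).scomp τ ((hasDerivAt_id τ).const_add t)
    rw [one_smul] at h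
    exact h
  intro t ht
  constructor
  · have hder : ∀ τ ∈ Ici (0 : ℝ), HasDerivAt (fun s => R (C s (f (t + s))))
        (-(Sn τ (f (t + τ))) + R (C τ (f' (t + τ)))) τ := by
      intro τ hτ
      have h := hasDerivAt_op (U := fun s => R.comp (C s)) (K := ‖R‖) (τ := τ)
        (g := fun s => f (t + s)) (g' := f' (t + τ)) (v := -(Sn τ (f (t + τ))))
        (fun s h => (R.le_opNorm _).trans
          (mul_le_mul_of_nonneg_left (P.C_le s h) (norm_nonneg _)))
        ((R.continuous.comp (P.C_cont (f' (t + τ)))).continuousAt)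
        (P.dC _ τ) (hsh t ht τ hτ)
      exact h
    have iSn : IntegrableOn (fun τ => -(Sn τ (f (t + τ)))) (Ioi 0) := (iS t ht).neg
    have hint : IntegrableOn (fun τ => -(Sn τ (f (t + τ))) + R (C τ (f' (t + τ))))
        (Ioi 0) := iSn.add (R.integrable_comp (iC' t ht))
    have hlim : Tendsto (fun s => R (C s (f (t + s)))) atTop (𝓝 0) := by
      refine tendsto_decay (t := t) (N := ‖R‖ * N) hm fun τ hτ => ?_
      calc _ ≤ ‖R‖ * ‖C τ (f (t + τ))‖ := R.le_opNorm _
        _ ≤ ‖R‖ * (N * (t + τ) ^ (-m)) := mul_le_mul_of_nonneg_left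
          ((P.C_le _ _).trans (hfN _ (by linarith))) (norm_nonneg _)
        _ = _ := by ring
    have h := integral_Ioi_of_hasDerivAt_of_tendsto' hder hint hlim
    rw [integral_add iSn (R.integrable_comp (iC' t ht)),
      ContinuousLinearMap.integral_comp_comm R (iC' t ht), P.C_zero, integral_neg,
      add_zero, zero_sub] at h
    rw [map_add]
    have h' : - cI Sn f t + R (cI C f' t) = - R (f t) := h
    rw [← neg_inj, neg_add, ← h']
    abel
  · have hder : ∀ τ ∈ Ici (0 : ℝ), HasDerivAt (fun s => R (Sn s (f (t + s))))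
        (C τ (f (t + τ)) + R (Sn τ (f' (t + τ)))) τ := by
      intro τ hτ
      have h := hasDerivAt_op (U := fun s => R.comp (Sn s)) (K := ‖R‖) (τ := τ)
        (g := fun s => f (t + s)) (g' := f' (t + τ)) (v := C τ (f (t + τ)))
        (fun s h => (R.le_opNorm _).trans
          (mul_le_mul_of_nonneg_left (P.Sn_le s h) (norm_nonneg _)))
        ((R.continuous.comp (P.Sn_cont (f' (t + τ)))).continuousAt)
        (P.dS _ τ) (hsh t ht τ hτ)
      exact h
    have hint : IntegrableOn (fun τ => C τ (f (t + τ)) + R (Sn τ (f' (t + τ))))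
        (Ioi 0) := (iC t ht).add (R.integrable_comp (iS' t ht))
    have hlim : Tendsto (fun s => R (Sn s (f (t + s)))) atTop (𝓝 0) := by
      refine tendsto_decay (t := t) (N := ‖R‖ * N) hm fun τ hτ => ?_
      calc _ ≤ ‖R‖ * ‖Sn τ (f (t + τ))‖ := R.le_opNorm _
        _ ≤ ‖R‖ * (N * (t + τ) ^ (-m)) := mul_le_mul_of_nonneg_left
          ((P.Sn_le _ _).trans (hfN _ (by linarith))) (norm_nonneg _)
        _ = _ := by ring
    have h := integral_Ioi_of_hasDerivAt_of_tendsto' hder hint hlim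
    rw [integral_add (iC t ht) (R.integrable_comp (iS' t ht)),
      ContinuousLinearMap.integral_comp_comm R (iS' t ht), P.Sn_zero, map_zero,
      sub_zero] at h
    exact eq_neg_of_add_eq_zero_left h

/-- row LIX -/
theorem lix (hLia : LiaStmt) (hLib : LibStmt) : LixStmt := by
  intro H _ _ _ S R C Sn P f0 f1 t0 m N ht1 hm h01 hc1 h0N h1N
  have ht0 : 0 < t0 := by linarith
  have L0 := lic hLia P ht0 hm hc1 h01 h0N h1N
  intro t ht
  have h4 := (L0 t ht).2
  refine ⟨?_, ?_, ?_, h4, ?_⟩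
  · have h5 : HasDerivAt (fun r => cI Sn f0 r) (cI Sn f1 t) t :=
      hLib H Sn f0 f1 t0 m N ht0 hm P.Sn_le P.Sn_cont hc1 h01 h0N h1N t ht
    have h6 : HasDerivAt (fun r => - R (cI Sn f0 r)) (- R (cI Sn f1 t)) t :=
      (R.hasFDerivAt.comp_hasDerivAt t h5).neg
    rw [h4]
    exact h6
  · exact hLib H C f0 f1 t0 m N ht0 hm P.C_le P.C_cont hc1 h01 h0N h1N t ht
  · rw [(L0 t ht).1, P.RR]
  · intro f2 h12 hc2 h2N
    have L1 := lic hLia P ht0 hm hc2 h12 h1N h2N
    rw [h4, (L1 t ht).1, P.RR, add_comm]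

end

end Pool.Agent.BEN.H64
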